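import Pool.Agent.TH422.MC.Mat

/-!
# Matroids whose hyperplanes meet in flats of corank two
-/

set_option autoImplicit false

namespace Pool.Agent.TH422.HI

open Matroid Set
open Pool.Agent.TH422.MC (rk coe_rk rk_eq isRk rk_contract rk_sum)

/-- `H` is a hyperplane of the matroid `M` of rank `r`: a flat of rank `r - 1`. -/
def IsHyp {α : Type} (M : Matroid α) (r : ℕ) (H : Set α) : Prop := M.IsFlat H ∧ M.eRk H + 1 = r

/-- `M` has rank `r` and the hyperplane intersection property: two different hyperplanes of `M` meet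
in a set of rank `r - 2`. -/
def HIP {α : Type} (M : Matroid α) (r : ℕ) : Prop :=
  M.eRank = r ∧ ∀ H₁ H₂, IsHyp M r H₁ → IsHyp M r H₂ → H₁ ≠ H₂ → M.eRk (H₁ ∩ H₂) + 2 = r

/-- `N` is modular. -/
def Modular {β : Type} (N : Matroid β) : Prop :=
  ∀ X Y, N.IsFlat X → N.IsFlat Y → N.eRk X + N.eRk Y = N.eRk (X ∪ Y) + N.eRk (X ∩ Y)

/-- `M` is isomorphic to a restriction of `N`. -/
def IsRestr {α β : Type} (M : Matroid α) (N : Matroid β) : Prop :=
  ∃ f : α → β, InjOn f M.E ∧ f '' M.E ⊆ N.E ∧ ∀ I ⊆ M.E, (M.Indep I ↔ N.Indep (f '' I))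

/-- Every finite matroid of rank `r` with the hyperplane intersection property is isomorphic to a
restriction of a finite modular matroid of rank `r`. -/
def Embeddable (r : ℕ) : Prop :=
  ∀ (α : Type) (M : Matroid α), M.E.Finite → HIP M r →
    ∃ (β : Type) (N : Matroid β), N.E.Finite ∧ Modular N ∧ N.eRank = r ∧ IsRestr M N

theorem flat_iff {α : Type} {M : Matroid α} [M.Finite] {F : Set α} :
    M.IsFlat F ↔ F ⊆ M.E ∧ ∀ x ∈ M.E, x ∉ F → rk M (insert x F) = rk M F + 1 := by
  constructor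
  · intro h
    refine ⟨h.subset_ground, fun x hx hxF => ?_⟩
    have h1 : M.eRk (insert x F) = M.eRk F + 1 := by
      refine eRk_insert_eq_add_one ⟨hx, ?_⟩
      rwa [h.closure]
    rw [← coe_rk, ← coe_rk] at h1
    exact_mod_cast h1
  · rintro ⟨h1, h2⟩
    rw [isFlat_iff_closure_eq]
    refine Subset.antisymm (fun x hx => ?_) (M.subset_closure F)
    by_contra hxF
    have h3 := h2 x (M.closure_subset_ground F hx) hxF
    have h4 : M.eRk (insert x F) ≤ M.eRk F := by
      rw [← M.eRk_closure_eq F]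
      exact M.eRk_mono (insert_subset hx (M.subset_closure F))
    rw [← coe_rk, ← coe_rk] at h4
    have h5 : rk M (insert x F) ≤ rk M F := by exact_mod_cast h4
    omega

theorem eRank_iff {α : Type} {M : Matroid α} [M.Finite] {r : ℕ} : M.eRank = r ↔ rk M M.E = r := by
  rw [← eRk_ground, ← coe_rk]
  exact_mod_cast Iff.rfl

theorem hyp_iff {α : Type} {M : Matroid α} [M.Finite] {r : ℕ} {H : Set α} :
    IsHyp M r H ↔ M.IsFlat H ∧ rk M H + 1 = r := by
  unfold IsHyp
  rw [← coe_rk]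
  exact_mod_cast Iff.rfl

/-- one coloop -/
abbrev Co : Matroid Unit := freeOn univ

theorem rk_co (S : Set Unit) : rk Co S = S.ncard := by
  refine rk_eq ?_
  rw [Indep.eRk_eq_encard (by rw [freeOn_indep_iff]; exact subset_univ _),
    (Set.toFinite S).cast_ncard_eq]

theorem step {r : ℕ} (h : Embeddable (r + 1)) : Embeddable r := by
  classical
  intro α M hfin hM
  have : M.Finite := ⟨hfin⟩
  set M' : Matroid (α ⊕ Unit) := M.sum Co with hM'
  have hE' : M'.E = Sum.inl '' M.E ∪ Sum.inr '' univ := by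
    rw [hM', sum_ground, freeOn_ground]
  have hfin' : M'.E.Finite := by
    rw [hE']
    exact (hfin.image _).union (Set.toFinite _)
  have : M'.Finite := ⟨hfin'⟩
  have hrk : ∀ X, rk M' X = rk M (Sum.inl ⁻¹' X) + (Sum.inr ⁻¹' X).ncard := by
    intro X
    rw [hM', rk_sum, rk_co]
  have hrM : rk M M.E = r := eRank_iff.1 hM.1
  have hEl : (Sum.inl ⁻¹' M'.E : Set α) = M.E := by
    rw [hE']
    ext z
    simp
  have hEr : (Sum.inr ⁻¹' M'.E : Set Unit) = univ := by
    rw [hE']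
    ext z
    simp
  have hrM' : M'.eRank = ((r + 1 : ℕ) : ℕ∞) := by
    rw [eRank_iff, hrk, hEl, hEr, hrM, ncard_univ, Nat.card_unique]
  -- the trace of a flat is a flat
  have hflat : ∀ H, M'.IsFlat H → M.IsFlat (Sum.inl ⁻¹' H) := by
    intro H hH
    obtain ⟨h1, h2⟩ := flat_iff.1 hH
    refine flat_iff.2 ⟨fun x hx => ?_, fun x hx hxH => ?_⟩
    · have h3 : x ∈ (Sum.inl ⁻¹' M'.E : Set α) := h1 hx
      rwa [hEl] at h3
    · have h3 := h2 (Sum.inl x) (by rw [hE']; exact Or.inl ⟨x, hx, rfl⟩) hxH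
      rw [hrk, hrk] at h3
      have h4 : (Sum.inl ⁻¹' (insert (Sum.inl x) H) : Set α) = insert x (Sum.inl ⁻¹' H) := by
        ext z
        simp
      have h5 : (Sum.inr ⁻¹' (insert (Sum.inl x) H) : Set Unit) = Sum.inr ⁻¹' H := by
        ext z
        simp
      rw [h4, h5] at h3
      omega
  have hcase : ∀ H, IsHyp M' (r + 1) H →
      (Sum.inr ⁻¹' H = (univ : Set Unit) ∧ IsHyp M r (Sum.inl ⁻¹' H)) ∨
      (Sum.inr ⁻¹' H = (∅ : Set Unit) ∧ Sum.inl ⁻¹' H = M.E) := by
    intro H hH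
    obtain ⟨h1, h2⟩ := hyp_iff.1 hH
    have h3 := hflat H h1
    rw [hrk] at h2
    rcases Set.eq_empty_or_nonempty (Sum.inr ⁻¹' H : Set Unit) with h4 | ⟨u, hu⟩
    · right
      refine ⟨h4, ?_⟩
      rw [h4, ncard_empty] at h2
      obtain ⟨h5, h6⟩ := flat_iff.1 h3
      refine Subset.antisymm h5 fun x hx => ?_
      by_contra hxH
      have h7 := h6 x hx hxH
      have h8 := (isRk M).mono (insert_subset hx h5)
      omega
    · left
      have h5 : (Sum.inr ⁻¹' H : Set Unit) = univ := by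
        ext z
        simp only [mem_univ, iff_true]
        exact hu
      refine ⟨h5, hyp_iff.2 ⟨h3, ?_⟩⟩
      rw [h5, ncard_univ, Nat.card_unique] at h2
      omega
  have hinter : ∀ H₁ H₂ : Set (α ⊕ Unit), rk M' (H₁ ∩ H₂) =
      rk M (Sum.inl ⁻¹' H₁ ∩ Sum.inl ⁻¹' H₂) +
        ((Sum.inr ⁻¹' H₁ : Set Unit) ∩ Sum.inr ⁻¹' H₂).ncard := by
    intro H₁ H₂
    rw [hrk, preimage_inter, preimage_inter]
  have hHIP : HIP M' (r + 1) := by
    refine ⟨hrM', fun H₁ H₂ h1 h2 hne => ?_⟩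
    suffices hs : rk M' (H₁ ∩ H₂) + 2 = r + 1 by
      rw [← coe_rk]
      exact_mod_cast hs
    rw [hinter]
    rcases hcase H₁ h1 with ⟨a1, a2⟩ | ⟨a1, a2⟩ <;> rcases hcase H₂ h2 with ⟨b1, b2⟩ | ⟨b1, b2⟩
    · rw [a1, b1, univ_inter, ncard_univ, Nat.card_unique]
      have hne' : (Sum.inl ⁻¹' H₁ : Set α) ≠ Sum.inl ⁻¹' H₂ := by
        intro h
        apply hne
        rw [← image_preimage_inl_union_image_preimage_inr H₁,
          ← image_preimage_inl_union_image_preimage_inr H₂, h, a1, b1]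
      have h3 := hM.2 _ _ a2 b2 hne'
      rw [← coe_rk] at h3
      have h4 : rk M (Sum.inl ⁻¹' H₁ ∩ Sum.inl ⁻¹' H₂) + 2 = r := by exact_mod_cast h3
      omega
    · rw [a1, b1, inter_empty, ncard_empty, b2, inter_eq_left.2 a2.1.subset_ground]
      have := (hyp_iff.1 a2).2
      omega
    · rw [a1, b1, empty_inter, ncard_empty, a2, inter_eq_right.2 b2.1.subset_ground]
      have := (hyp_iff.1 b2).2
      omega
    · exfalso
      apply hne
      rw [← image_preimage_inl_union_image_preimage_inr H₁,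
        ← image_preimage_inl_union_image_preimage_inr H₂, a1, b1, a2, b2]
  obtain ⟨β, N, hNfin, hmod, hNr, f, hf, hfE, hfI⟩ := h (α ⊕ Unit) M' hfin' hHIP
  have : N.Finite := ⟨hNfin⟩
  set e : β := f (Sum.inr ()) with he
  have hinrE : (Sum.inr () : α ⊕ Unit) ∈ M'.E := by
    rw [hE']
    exact Or.inr ⟨(), mem_univ _, rfl⟩
  have hinlE : ∀ a ∈ M.E, (Sum.inl a : α ⊕ Unit) ∈ M'.E := fun a ha => by
    rw [hE']
    exact Or.inl ⟨a, ha, rfl⟩
  have heE : e ∈ N.E := hfE ⟨_, hinrE, rfl⟩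
  have hei : N.Indep {e} := by
    have h1 := (hfI {Sum.inr ()} (singleton_subset_iff.2 hinrE)).1 (by
      rw [hM', sum_indep_iff]
      have h2 : (Sum.inl ⁻¹' {(Sum.inr () : α ⊕ Unit)} : Set α) = ∅ := by
        ext z
        simp
      rw [h2]
      exact ⟨M.empty_indep, by rw [freeOn_indep_iff]; exact subset_univ _⟩)
    rwa [image_singleton] at h1
  have hre : rk N {e} = 1 := by
    refine rk_eq ?_
    rw [hei.eRk_eq_encard, encard_singleton]
    rfl
  have hcon : ∀ X, rk N ({e} ∪ X) = 1 + rk (N ／ {e}) X := fun X => by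
    rw [rk_contract, hre]
  have hCfin : (N ／ {e}).E.Finite := hNfin.subset (contract_ground_subset_ground N {e})
  have : (N ／ {e}).Finite := ⟨hCfin⟩
  have hflatN : ∀ X, (N ／ {e}).IsFlat X → N.IsFlat ({e} ∪ X) := by
    intro X hX
    obtain ⟨h1, h2⟩ := flat_iff.1 hX
    refine flat_iff.2 ⟨union_subset (singleton_subset_iff.2 heE)
      (h1.trans (contract_ground_subset_ground N {e})), fun y hy hyX => ?_⟩
    rw [mem_union, not_or, mem_singleton_iff] at hyX
    have h3 := h2 y (by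
      rw [contract_ground]
      exact ⟨hy, hyX.1⟩) hyX.2
    have h4 : insert y ({e} ∪ X) = {e} ∪ insert y X := by
      ext z
      simp only [mem_insert_iff, mem_union, mem_singleton_iff]
      tauto
    rw [h4, hcon, hcon, h3]
    omega
  refine ⟨β, N ／ {e}, hCfin, ?_, ?_, fun a => f (Sum.inl a), ?_, ?_, ?_⟩
  · intro X Y hX hY
    have h1 := hmod _ _ (hflatN X hX) (hflatN Y hY)
    rw [← coe_rk, ← coe_rk, ← coe_rk, ← coe_rk] at h1 ⊢
    have h2 : {e} ∪ X ∪ ({e} ∪ Y) = {e} ∪ (X ∪ Y) := by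
      ext z
      simp only [mem_union, mem_singleton_iff]
      tauto
    have h3 : ({e} ∪ X) ∩ ({e} ∪ Y) = {e} ∪ (X ∩ Y) := by
      ext z
      simp only [mem_union, mem_singleton_iff, mem_inter_iff]
      tauto
    rw [h2, h3, hcon, hcon, hcon, hcon] at h1
    have h4 : 1 + rk (N ／ {e}) X + (1 + rk (N ／ {e}) Y) =
      1 + rk (N ／ {e}) (X ∪ Y) + (1 + rk (N ／ {e}) (X ∩ Y)) := by exact_mod_cast h1
    have h5 : rk (N ／ {e}) X + rk (N ／ {e}) Y =
      rk (N ／ {e}) (X ∪ Y) + rk (N ／ {e}) (X ∩ Y) := by omega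
    exact_mod_cast h5
  · rw [eRank_iff]
    have h1 := eRank_iff.1 hNr
    have h2 : N.E = {e} ∪ (N ／ {e}).E := by
      rw [contract_ground, union_sdiff_self, union_eq_right.2 (singleton_subset_iff.2 heE)]
    rw [h2, hcon] at h1
    omega
  · intro a ha b hb hab
    exact Sum.inl_injective (hf (hinlE a ha) (hinlE b hb) hab)
  · rintro _ ⟨a, ha, rfl⟩
    rw [contract_ground]
    refine ⟨hfE ⟨_, hinlE a ha, rfl⟩, fun h => ?_⟩
    have h1 := hf (hinlE a ha) hinrE h
    exact Sum.inl_ne_inr h1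
  · intro I hI
    have himg : (fun a => f (Sum.inl a)) '' I = f '' (Sum.inl '' I) := by
      rw [← image_comp]
      rfl
    have hsub : (Sum.inl '' I ∪ {Sum.inr ()} : Set (α ⊕ Unit)) ⊆ M'.E := by
      rintro z (⟨a, ha, rfl⟩ | hz)
      · exact hinlE a (hI ha)
      · rw [mem_singleton_iff.1 hz]
        exact hinrE
    rw [hei.contract_indep_iff, himg]
    have h1 := hfI _ hsub
    rw [image_union, image_singleton, ← he] at h1
    have h2 : M'.Indep (Sum.inl '' I ∪ {Sum.inr ()}) ↔ M.Indep I := by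
      rw [hM', sum_indep_iff]
      have h3 : (Sum.inl ⁻¹' (Sum.inl '' I ∪ {(Sum.inr () : α ⊕ Unit)}) : Set α) = I := by
        ext z
        simp
      rw [h3]
      exact and_iff_left (by rw [freeOn_indep_iff]; exact subset_univ _)
    rw [← h2, h1]
    constructor
    · intro h3
      refine ⟨?_, h3⟩
      rw [disjoint_singleton_right]
      rintro ⟨_, ⟨a, ha, rfl⟩, h4⟩
      have h5 := hf (hinlE a (hI ha)) hinrE h4
      exact Sum.inl_ne_inr h5
    · exact fun h3 => h3.2

theorem down {r k : ℕ} (h : Embeddable (r + k)) : Embeddable r := by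
  induction k with
  | zero => exact h
  | succ k ih => exact ih (step h)

end Pool.Agent.TH422.HI
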